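import Mathlib
import Pool.Agent.D0H10.Q4.StmB
import Pool.Agent.Y715.Z.Min

/-!
# The Tamagawa numbers of `y² = x³ + 2 Δ x` over `ℚ(i)`, `Δ` squarefree and primary, and minimality
-/

set_option autoImplicit false
set_option linter.unusedSectionVars false

open NumberField IsDedekindDomain

namespace Pool.Agent.D0H11.Q4

open scoped Classical
open WeierstrassCurve WithZero
open Pool.Agent.Y696 (NonsingRed)
open Pool.Agent.Y682 (vv vv_coe)
open Pool.Agent.Y699 hiding q4
open Pool.Agent.Y715.Z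
open Pool.Agent.H304R2.EC.A1 (prim Q prim_iff prim_norm_odd re_mul' im_mul')
open H385 (ZI RQ im1 nrm)

/-! ### arithmetic modulo four -/

lemma dec4 : ∀ p q r s : ZMod 4, ((p + q).val % 2 = 1) →
    ∀ A B : ZMod 4, ((A = 1 ∧ B = 0) ∨ (A = 3 ∧ B = 2)) →
    ¬ ((r * r - s * s) - (r * s + s * r) = p * ((p * p - q * q) + B) - q * ((p * q + q * p) - A) ∧
      (r * r - s * s) + (r * s + s * r) =
        p * ((p * q + q * p) - A) + q * ((p * p - q * q) + B)) := by
  decide

lemma no_four {Δ a c k : ZI} (hΔ : prim Δ) (ha : ¬ pi1 ∣ a)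
    (h : pi1 * c ^ 2 = a * (a ^ 2 - im1 * Δ) + 4 * k) : False := by
  rw [odd_iff] at ha
  rw [prim_iff] at hΔ
  have h1 := congrArg Zsqrtd.re h
  have h2 := congrArg Zsqrtd.im h
  have hpi : pi1 = ⟨1, 1⟩ := rfl
  have him : im1 = ⟨0, 1⟩ := rfl
  have h4 : (4 : ZI) = ⟨4, 0⟩ := by decide
  rw [hpi, him, h4] at h1 h2
  simp only [sq, Zsqrtd.re_mul, Zsqrtd.im_mul, Zsqrtd.re_add, Zsqrtd.im_add, Zsqrtd.re_sub,
    Zsqrtd.im_sub] at h1 h2
  have h1' := congrArg (Int.cast : ℤ → ZMod 4) h1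
  have h2' := congrArg (Int.cast : ℤ → ZMod 4) h2
  push_cast at h1' h2'
  have h40 : (4 : ZMod 4) = 0 := by decide
  have hodd : (((a.re : ZMod 4) + (a.im : ZMod 4)).val % 2 = 1) := by
    have h5 : ((a.re : ZMod 4) + (a.im : ZMod 4)) = ((a.re + a.im : ℤ) : ZMod 4) := by push_cast; rfl
    rw [h5]
    have h6 := ZMod.val_intCast (n := 4) (a.re + a.im)
    omega
  refine dec4 (a.re : ZMod 4) (a.im : ZMod 4) (c.re : ZMod 4) (c.im : ZMod 4) hodd
    (Δ.re : ZMod 4) (Δ.im : ZMod 4) hΔ ⟨?_, ?_⟩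
  · linear_combination h1' + (k.re : ZMod 4) * h40
  · linear_combination h2' + (k.im : ZMod 4) * h40

lemma no_two {Δ a k : ZI} (hΔ : prim Δ) (h : Δ + 3 * im1 * a ^ 2 = 2 * k) : False := by
  have h1 := congrArg Zsqrtd.re h
  have him : im1 = ⟨0, 1⟩ := rfl
  have h2 : (2 : ZI) = ⟨2, 0⟩ := by decide
  have h3 : (3 : ZI) = ⟨3, 0⟩ := by decide
  rw [him, h2, h3] at h1
  simp only [sq, Zsqrtd.re_mul, Zsqrtd.im_mul, Zsqrtd.re_add] at h1
  obtain ⟨h5, h6⟩ := hΔ
  have h7 : Δ.re + 2 * (-3 * (a.re * a.im)) = 2 * k.re := by linear_combination h1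
  omega

/-! ### local computations -/

section loc

variable {L : Type} [Field L] {v : Valuation L ℤᵐ⁰}

/-- above two the reduction is nonsingular if and only if the abscissa is not small -/
lemma ns_bad2 {D x y : L} (h2 : v 2 < 1) (hD : v D < 1) (h : (q4 D).toAffine.Nonsingular x y) :
    NonsingRed v (q4 D) (.some x y h) ↔ 1 ≤ v x := by
  rw [ns_some]
  have he := q4_eqn.1 h.1
  have h3 : v (3 : L) = 1 := by
    have e3 : (3 : L) = 1 + 2 := by norm_num
    rw [e3, Valuation.map_add_eq_of_lt_left, map_one]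
    rw [map_one]
    exact h2
  constructor
  · intro h1
    by_contra hx
    rw [not_le] at hx
    rcases h1 with h1 | h1
    · have h4 : v y ^ 2 < 1 := by
        rw [← map_pow, he]
        refine lt_of_le_of_lt (Valuation.map_add _ _ _) (max_lt ?_ ?_)
        · rw [map_pow]; exact pow_lt_one₀ zero_le hx (by norm_num)
        · rw [map_mul]; exact mul_lt_one_of_lt_of_le hD hx.le
      have h5 : 1 ≤ v y := by
        rw [map_mul] at h1
        exact h1.trans (mul_le_of_le_one_left' h2.le)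
      exact absurd h4 (not_lt.2 (one_le_pow₀ h5))
    · refine absurd h1 (not_le.2 ?_)
      refine lt_of_le_of_lt (Valuation.map_add _ _ _) (max_lt ?_ hD)
      rw [map_mul, map_pow, h3, one_mul]
      exact pow_lt_one₀ zero_le hx two_ne_zero
  · intro hx
    right
    rw [Valuation.map_add_eq_of_lt_left, map_mul, h3, one_mul, map_pow]
    · exact one_le_pow₀ hx
    · rw [map_mul, h3, one_mul, map_pow]
      exact lt_of_lt_of_le hD (one_le_pow₀ hx)

/-- the index two, from the absence of points with abscissas of intermediate size -/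
lemma index_two' {D : L} (hD0 : D ≠ 0) (hlt : v D < 1)
    (hns : ∀ (x y : L) (h : (q4 D).toAffine.Nonsingular x y),
      NonsingRed v (q4 D) (.some x y h) ↔ 1 ≤ v x)
    (hgap : ∀ x y : L, y ^ 2 = x ^ 3 + D * x → v x < 1 → v x ≤ v D)
    (H : AddSubgroup (q4 D).toAffine.Point) (hH : ∀ P, P ∈ H ↔ NonsingRed v (q4 D) P) :
    H.index = 2 := by
  have hT : (q4 D).toAffine.Nonsingular 0 0 := by
    rw [Affine.nonsingular_iff]
    refine ⟨q4_eqn.2 (by ring), Or.inl ?_⟩
    simp [q4]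
    exact hD0.symm
  rw [AddSubgroup.index_eq_two_iff]
  refine ⟨.some 0 0 hT, fun P => ?_⟩
  have hTn : (Affine.Point.some 0 0 hT : (q4 D).toAffine.Point) ∉ H := by
    rw [hH, hns, map_zero]
    exact not_le.2 zero_lt_one
  rcases P with _ | ⟨x, y, h⟩
  · right
    refine ⟨?_, ?_⟩
    · exact H.zero_mem
    · have e : (Affine.Point.zero : (q4 D).toAffine.Point) + .some 0 0 hT = .some 0 0 hT :=
        zero_add _
      rw [e]
      exact hTn
  · have he := q4_eqn.1 h.1
    by_cases hx : x = 0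
    · subst hx
      have hy : y = 0 := by
        have : y ^ 2 = 0 := by rw [he]; ring
        exact pow_eq_zero_iff two_ne_zero |>.1 this
      subst hy
      left
      refine ⟨?_, hTn⟩
      have e : (Affine.Point.some 0 0 h : (q4 D).toAffine.Point) + .some 0 0 hT = 0 := by
        refine Affine.Point.add_of_Y_eq rfl ?_
        simp [q4, Affine.negY]
      rw [e]
      exact H.zero_mem
    · have hsl : (q4 D).toAffine.slope x 0 y 0 = y / x := by
        rw [Affine.slope_of_X_ne hx, sub_zero, sub_zero]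
      have hadd : ∃ h', (Affine.Point.some x y h : (q4 D).toAffine.Point) + .some 0 0 hT =
          .some (D / x) ((q4 D).toAffine.addY x 0 y ((q4 D).toAffine.slope x 0 y 0)) h' := by
        have e1 := Affine.Point.add_of_X_ne (W := (q4 D).toAffine) (h₁ := h) (h₂ := hT) hx
        have e2 : (q4 D).toAffine.addX x 0 ((q4 D).toAffine.slope x 0 y 0) = D / x := by
          rw [hsl]
          simp only [Affine.addX, q4]
          field_simp
          linear_combination he
        obtain ⟨h'', e1⟩ : ∃ h'', (Affine.Point.some x y h : (q4 D).toAffine.Point) +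
            .some 0 0 hT = .some ((q4 D).toAffine.addX x 0 ((q4 D).toAffine.slope x 0 y 0))
              ((q4 D).toAffine.addY x 0 y ((q4 D).toAffine.slope x 0 y 0)) h'' := ⟨_, e1⟩
        revert h''
        rw [e2]
        exact fun h'' e1 => ⟨h'', e1⟩
      obtain ⟨h', hadd⟩ := hadd
      have hvx : v x ≠ 0 := (Valuation.ne_zero_iff _).2 hx
      by_cases h1 : 1 ≤ v x
      · right
        refine ⟨?_, ?_⟩
        · rw [hH, hns]; exact h1
        · rw [hadd, hH, hns, not_le, map_div₀, div_lt_iff₀ (zero_lt_iff.2 hvx), one_mul]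
          exact lt_of_lt_of_le hlt h1
      · left
        refine ⟨?_, ?_⟩
        · rw [hadd, hH, hns, map_div₀, le_div_iff₀ (zero_lt_iff.2 hvx), one_mul]
          exact hgap x y he (not_le.1 h1)
        · rw [hH, hns]; exact h1

lemma sq_le_exp {x : ℤᵐ⁰} {n : ℤ} (h : x ^ 2 ≤ exp (2 * n)) : x ≤ exp n := by
  by_cases hx : x = 0
  · rw [hx]; exact zero_le
  · rw [← exp_log hx] at h ⊢
    rw [← exp_nsmul, exp_le_exp] at h
    rw [exp_le_exp]
    simp only [nsmul_eq_mul, Nat.cast_ofNat] at h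
    omega

/-- integrality of the coefficients after a change of variables with a factor in the maximal ideal -/
lemma change' {D u r s t : L} (hu : u ≠ 0) (hu1 : v u ≤ exp (-1 : ℤ)) (hD : v D = exp (-2 : ℤ))
    (h2 : v 2 = exp (-2 : ℤ))
    (h1' : v (u⁻¹ * (2 * s)) ≤ 1) (h2' : v (u⁻¹ ^ 2 * (3 * r - s ^ 2)) ≤ 1)
    (h3' : v (u⁻¹ ^ 3 * (2 * t)) ≤ 1) (h4' : v (u⁻¹ ^ 4 * (D + 3 * r ^ 2 - 2 * s * t)) ≤ 1)
    (hno : ∀ x : L, v (D + 3 * x ^ 2) ≤ exp (-4 : ℤ) → False) : False := by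
  have hvu : v u ≠ 0 := (Valuation.ne_zero_iff _).2 hu
  have hcl : ∀ (n : ℕ) (x : L), v (u⁻¹ ^ n * x) ≤ 1 → v x ≤ v u ^ n := by
    intro n x hx
    rw [map_mul, map_pow, map_inv₀, inv_pow] at hx
    have h5 : v x = v u ^ n * ((v u ^ n)⁻¹ * v x) := by
      rw [← mul_assoc, mul_inv_cancel₀ (pow_ne_zero n hvu), one_mul]
    rw [h5]
    exact mul_le_of_le_one_right' hx
  have h4e : v u ^ 4 ≤ exp (-4 : ℤ) := by
    calc v u ^ 4 ≤ (exp (-1 : ℤ)) ^ 4 := by gcongr
      _ = exp (-4 : ℤ) := by rw [← exp_nsmul]; rfl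
  have h3e : v u ^ 3 ≤ exp (-3 : ℤ) := by
    calc v u ^ 3 ≤ (exp (-1 : ℤ)) ^ 3 := by gcongr
      _ = exp (-3 : ℤ) := by rw [← exp_nsmul]; rfl
  have h2e : v u ^ 2 ≤ exp (-2 : ℤ) := by
    calc v u ^ 2 ≤ (exp (-1 : ℤ)) ^ 2 := by gcongr
      _ = exp (-2 : ℤ) := by rw [← exp_nsmul]; rfl
  have k1 : v (2 * s) ≤ exp (-1 : ℤ) := by
    have := hcl 1 (2 * s) (by rwa [pow_one])
    rw [pow_one] at this
    exact this.trans hu1
  have k2 : v (3 * r - s ^ 2) ≤ exp (-2 : ℤ) := (hcl 2 _ h2').trans h2e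
  have k3 : v (2 * t) ≤ exp (-3 : ℤ) := (hcl 3 _ h3').trans h3e
  have k4 : v (D + 3 * r ^ 2 - 2 * s * t) ≤ exp (-4 : ℤ) := (hcl 4 _ h4').trans h4e
  have h3 : v (3 : L) = 1 := by
    have e3 : (3 : L) = 1 + 2 := by norm_num
    rw [e3, Valuation.map_add_eq_of_lt_left, map_one]
    rw [map_one, h2, ← exp_zero, exp_lt_exp]
    norm_num
  -- the size of `t`
  have ht : v t ≤ exp (-1 : ℤ) := by
    have h5 : exp (-2 : ℤ) * v t ≤ exp (-3 : ℤ) := by
      rw [← h2, ← map_mul]
      exact k3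
    have h7 : v t = exp (2 : ℤ) * (exp (-2 : ℤ) * v t) := by
      rw [← mul_assoc, ← exp_add]; norm_num
    rw [h7]
    calc exp (2 : ℤ) * (exp (-2 : ℤ) * v t) ≤ exp (2 : ℤ) * exp (-3 : ℤ) := by gcongr
      _ = exp (-1 : ℤ) := by rw [← exp_add]; norm_num
  have hst : v (2 * s * t) ≤ exp (-2 : ℤ) := by
    rw [map_mul]
    calc v (2 * s) * v t ≤ exp (-1 : ℤ) * exp (-1 : ℤ) := mul_le_mul' k1 ht
      _ = exp (-2 : ℤ) := by rw [← exp_add]; norm_num
  -- the size of `r`
  have hr : v r ≤ exp (-1 : ℤ) := by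
    apply sq_le_exp
    have h5 : v (3 * r ^ 2) = v r ^ 2 := by rw [map_mul, h3, one_mul, map_pow]
    rw [← h5]
    have h6 : 3 * r ^ 2 = (D + 3 * r ^ 2 - 2 * s * t) + (2 * s * t - D) := by ring
    rw [h6]
    have h24 : (exp (-4 : ℤ) : ℤᵐ⁰) ≤ exp (2 * -1 : ℤ) := by rw [exp_le_exp]; norm_num
    refine (Valuation.map_add _ _ _).trans (max_le (k4.trans h24)
      ((Valuation.map_sub _ _ _).trans (max_le hst hD.le)))
  -- the size of `s`
  have hs : v s ≤ exp (-1 : ℤ) := by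
    have h8 : v s ^ 2 ≤ exp (-1 : ℤ) := by
      rw [← map_pow]
      have h6 : s ^ 2 = 3 * r - (3 * r - s ^ 2) := by ring
      rw [h6]
      refine (Valuation.map_sub _ _ _).trans (max_le ?_ (k2.trans ?_))
      · rw [map_mul, h3, one_mul]; exact hr
      · rw [exp_le_exp]; norm_num
    by_cases hs0 : v s = 0
    · rw [hs0]; exact zero_le
    · rw [← exp_log hs0] at h8 ⊢
      rw [← exp_nsmul, exp_le_exp] at h8
      rw [exp_le_exp]
      simp only [nsmul_eq_mul, Nat.cast_ofNat] at h8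
      omega
  refine hno r ?_
  have h9 : D + 3 * r ^ 2 = (D + 3 * r ^ 2 - 2 * s * t) + s * (2 * t) := by ring
  rw [h9]
  refine (Valuation.map_add _ _ _).trans (max_le k4 ?_)
  rw [map_mul]
  calc v s * v (2 * t) ≤ exp (-1 : ℤ) * exp (-3 : ℤ) := mul_le_mul' hs k3
    _ = exp (-4 : ℤ) := by rw [← exp_add]; norm_num

end loc

/-! ### the place `1 + i` -/

section glob

variable {K : Type} [Field K] [NumberField K] (e : ZI ≃+* 𝓞 K)

lemma v2c : vv (plc e pi1_prime : HeightOneSpectrum (𝓞 K))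
    (2 : (plc e pi1_prime : HeightOneSpectrum (𝓞 K)).adicCompletion K) = exp (-2 : ℤ) := by
  have h3 : (2 : (plc e pi1_prime).adicCompletion K) = ph e pi1_prime 2 := (map_ofNat _ 2).symm
  rw [h3, vv_coe, val_two1]

lemma vpi : vv (plc e pi1_prime : HeightOneSpectrum (𝓞 K)) (ph e pi1_prime (em0 e pi1)) =
    exp (-1 : ℤ) := by
  rw [vv_coe, val_z]

lemma i_sq : (ph e pi1_prime (em0 e im1)) ^ 2 = -1 := by
  rw [← map_pow, ← map_pow]
  have : im1 ^ 2 = -1 := by decide
  rw [this, map_neg, map_one, map_neg, map_one]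

lemma pi_eq : ph e pi1_prime (em0 e pi1) = 1 + ph e pi1_prime (em0 e im1) := by
  have h0 : pi1 = 1 + im1 := by decide
  have h1 : em0 e pi1 = 1 + em0 e im1 := by
    rw [h0, map_add, map_one]
  rw [h1, map_add, map_one]

/-- there is no abscissa of order one -/
lemma no_one_loc {Δ : ZI} (hΔ : prim Δ) {x y : (plc e pi1_prime).adicCompletion K}
    (hx : vv (plc e pi1_prime) x = exp (-1 : ℤ))
    (h : y ^ 2 = x ^ 3 + ph e pi1_prime (em0 e (2 * Δ)) * x) : False := by
  set w := vv (plc e pi1_prime) with hw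
  set l := ph e pi1_prime (em0 e pi1) with hl
  set i := ph e pi1_prime (em0 e im1) with hi
  set δ := ph e pi1_prime (em0 e Δ) with hδ
  have hii : i ^ 2 = -1 := i_sq e
  have hli : l = 1 + i := pi_eq e
  have hwl : w l = exp (-1 : ℤ) := vpi e
  have hl0 : l ≠ 0 := by
    intro h0
    rw [h0, map_zero] at hwl
    exact exp_ne_zero hwl.symm
  have hD : ph e pi1_prime (em0 e (2 * Δ)) = 2 * δ := by
    rw [map_mul, map_mul, map_ofNat, map_ofNat]
  rw [hD] at h
  obtain ⟨X, hX⟩ : ∃ X, X = x / l := ⟨_, rfl⟩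
  obtain ⟨Y, hY⟩ : ∃ Y, Y = y / l ^ 2 := ⟨_, rfl⟩
  have hxX : x = l * X := by rw [hX]; field_simp
  have hyY : y = l ^ 2 * Y := by rw [hY]; field_simp
  have hwX : w X = 1 := by
    rw [hX, map_div₀, hx, hwl, div_self exp_ne_zero]
  have hl2 : l ^ 2 = 2 * i := by rw [hli]; linear_combination hii
  have hwδ : w δ ≤ 1 := by rw [hw, hδ, vv_coe]; exact val_le e pi1_prime Δ
  have hwi : w i ≤ 1 := by rw [hw, hi, vv_coe]; exact val_le e pi1_prime im1
  have h20 : (2 : (plc e pi1_prime).adicCompletion K) = -(i * l ^ 2) := by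
    rw [hl2]; linear_combination (2 : (plc e pi1_prime).adicCompletion K) * hii
  have key : l * Y ^ 2 = X * (X ^ 2 - i * δ) := by
    have h3 : l ^ 3 * (l * Y ^ 2) = l ^ 3 * (X * (X ^ 2 - i * δ)) := by
      have h4 := h
      rw [hxX, hyY, h20] at h4
      linear_combination h4
    exact mul_left_cancel₀ (pow_ne_zero 3 hl0) h3
  have hwY : w Y ≤ 1 := by
    have h5 : w (l * Y ^ 2) ≤ 1 := by
      rw [key, map_mul, hwX, one_mul]
      refine (Valuation.map_sub _ _ _).trans (max_le ?_ ?_)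
      · rw [map_pow, hwX, one_pow]
      · rw [map_mul]; exact mul_le_one' hwi hwδ
    rw [map_mul, hwl, map_pow] at h5
    by_cases hY0 : w Y = 0
    · rw [hY0]; exact zero_le
    · rw [← exp_log hY0] at h5 ⊢
      rw [← exp_nsmul, ← exp_add, ← exp_zero, exp_le_exp] at h5
      rw [← exp_zero, exp_le_exp]
      simp only [nsmul_eq_mul, Nat.cast_ofNat] at h5
      omega
  obtain ⟨a, ha⟩ := approx e pi1_prime hwX.le 3 (by norm_num)
  obtain ⟨c, hc⟩ := approx e pi1_prime hwY 3 (by norm_num)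
  have ha' := lt_exp ha
  have hc' := lt_exp hc
  have e34 : -((3 : ℤ) + 1) = -4 := by norm_num
  rw [e34] at ha' hc'
  set A := ph e pi1_prime (em0 e a) with hA
  set C := ph e pi1_prime (em0 e c) with hC
  have hwA : w A ≤ 1 := by rw [hw, hA, vv_coe]; exact val_le e pi1_prime a
  have hwC : w C ≤ 1 := by rw [hw, hC, vv_coe]; exact val_le e pi1_prime c
  have hwl1 : w l ≤ 1 := by rw [hw, hl, vv_coe]; exact val_le e pi1_prime pi1
  have hmul : ∀ s t : (plc e pi1_prime).adicCompletion K, w s ≤ exp (-4 : ℤ) → w t ≤ 1 →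
      w (s * t) ≤ exp (-4 : ℤ) := by
    intro s t hs ht
    rw [map_mul]
    exact (mul_le_of_le_one_right' ht).trans hs
  have key2 : w (l * C ^ 2 - A * (A ^ 2 - i * δ)) ≤ exp (-4 : ℤ) := by
    have e1 : l * C ^ 2 - A * (A ^ 2 - i * δ) =
        (X - A) * (X ^ 2 + X * A + A ^ 2 - i * δ) - (Y - C) * (l * (Y + C)) := by
      linear_combination key
    rw [e1]
    refine (Valuation.map_sub _ _ _).trans (max_le (hmul _ _ ha' ?_) (hmul _ _ hc' ?_))
    · refine (Valuation.map_sub _ _ _).trans (max_le ((Valuation.map_add _ _ _).trans (max_le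
        ((Valuation.map_add _ _ _).trans (max_le ?_ ?_)) ?_)) ?_)
      · rw [map_pow, hwX, one_pow]
      · rw [map_mul, hwX, one_mul]; exact hwA
      · rw [map_pow]; exact pow_le_one₀ zero_le hwA
      · rw [map_mul]; exact mul_le_one' hwi hwδ
    · rw [map_mul]
      exact mul_le_one' hwl1 ((Valuation.map_add _ _ _).trans (max_le hwY hwC))
  have e2 : l * C ^ 2 - A * (A ^ 2 - i * δ) =
      ph e pi1_prime (em0 e (pi1 * c ^ 2 - a * (a ^ 2 - im1 * Δ))) := by
    rw [hA, hC, hl, hi, hδ]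
    simp only [map_sub, map_mul, map_pow]
  rw [e2, hw, vv_coe] at key2
  have h6 := (val_pow_le e pi1_prime _ 4).1 (by exact_mod_cast key2)
  obtain ⟨k, hk⟩ := h6
  have ha1 : ¬ pi1 ∣ a := by
    intro hd
    have h7 := (val_lt e pi1_prime a).2 hd
    have h8 : w X < 1 := by
      have : X = (X - A) + A := by ring
      rw [this]
      refine lt_of_le_of_lt (Valuation.map_add _ _ _) (max_lt (lt_of_le_of_lt ha' ?_) ?_)
      · rw [← exp_zero, exp_lt_exp]; norm_num
      · rw [hw, hA, vv_coe]; exact h7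
    rw [hwX] at h8
    exact lt_irrefl _ h8
  have hp4 : pi1 ^ 4 = 4 * (-1) := by decide
  rw [hp4] at hk
  refine no_four (a := a) (c := c) (k := -k) hΔ ha1 ?_
  linear_combination hk

/-- the derivative is never highly divisible -/
lemma no_der_loc {Δ : ZI} (hΔ : prim Δ) {x : (plc e pi1_prime).adicCompletion K}
    (h : vv (plc e pi1_prime) (ph e pi1_prime (em0 e (2 * Δ)) + 3 * x ^ 2) ≤ exp (-4 : ℤ)) :
    False := by
  set w := vv (plc e pi1_prime) with hw
  set l := ph e pi1_prime (em0 e pi1) with hl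
  set i := ph e pi1_prime (em0 e im1) with hi
  set δ := ph e pi1_prime (em0 e Δ) with hδ
  have hii : i ^ 2 = -1 := i_sq e
  have hli : l = 1 + i := pi_eq e
  have hwl : w l = exp (-1 : ℤ) := vpi e
  have hw2 : w 2 = exp (-2 : ℤ) := v2c e
  have hl0 : l ≠ 0 := by
    intro h0
    rw [h0, map_zero] at hwl
    exact exp_ne_zero hwl.symm
  have hD : ph e pi1_prime (em0 e (2 * Δ)) = 2 * δ := by
    rw [map_mul, map_mul, map_ofNat, map_ofNat]
  rw [hD] at h
  have hwδ : w δ = 1 := by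
    rw [hw, hδ, vv_coe]; exact val_one e pi1_prime (pi1_prim hΔ)
  have hw3 : w 3 = 1 := by
    have e3 : (3 : (plc e pi1_prime).adicCompletion K) = 1 + 2 := by norm_num
    rw [e3, Valuation.map_add_eq_of_lt_left, map_one]
    rw [map_one, hw2, ← exp_zero, exp_lt_exp]
    norm_num
  have hwx : w x ≤ exp (-1 : ℤ) := by
    apply sq_le_exp
    have h5 : w (3 * x ^ 2) = w x ^ 2 := by rw [map_mul, hw3, one_mul, map_pow]
    rw [← h5]
    have h6 : 3 * x ^ 2 = (2 * δ + 3 * x ^ 2) - 2 * δ := by ring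
    rw [h6]
    refine (Valuation.map_sub _ _ _).trans (max_le (h.trans ?_) ?_)
    · rw [exp_le_exp]; norm_num
    · rw [map_mul, hw2, hwδ, mul_one, exp_le_exp]; norm_num
  obtain ⟨X, hX⟩ : ∃ X, X = x / l := ⟨_, rfl⟩
  have hxX : x = l * X := by rw [hX]; field_simp
  have hwX : w X ≤ 1 := by
    rw [hX, map_div₀, hwl]
    rw [div_le_iff₀ (zero_lt_iff.2 exp_ne_zero), one_mul]
    exact hwx
  have hl2 : l ^ 2 = 2 * i := by rw [hli]; linear_combination hii
  have hk1 : w (δ + 3 * i * X ^ 2) ≤ exp (-2 : ℤ) := by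
    have h7 : 2 * δ + 3 * x ^ 2 = 2 * (δ + 3 * i * X ^ 2) := by
      rw [hxX]; linear_combination 3 * X ^ 2 * hl2
    rw [h7, map_mul, hw2] at h
    have h8 : w (δ + 3 * i * X ^ 2) = exp (2 : ℤ) * (exp (-2 : ℤ) * w (δ + 3 * i * X ^ 2)) := by
      rw [← mul_assoc, ← exp_add]; norm_num
    rw [h8]
    calc exp (2 : ℤ) * (exp (-2 : ℤ) * w (δ + 3 * i * X ^ 2)) ≤ exp (2 : ℤ) * exp (-4 : ℤ) := by
          gcongr
      _ = exp (-2 : ℤ) := by rw [← exp_add]; norm_num
  obtain ⟨a, ha⟩ := approx e pi1_prime hwX 1 (by norm_num)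
  have ha' := lt_exp ha
  have e12 : -((1 : ℤ) + 1) = -2 := by norm_num
  rw [e12] at ha'
  set A := ph e pi1_prime (em0 e a) with hA
  have hwA : w A ≤ 1 := by rw [hw, hA, vv_coe]; exact val_le e pi1_prime a
  have hwi : w i ≤ 1 := by rw [hw, hi, vv_coe]; exact val_le e pi1_prime im1
  have key2 : w (δ + 3 * i * A ^ 2) ≤ exp (-2 : ℤ) := by
    have e1 : δ + 3 * i * A ^ 2 = (δ + 3 * i * X ^ 2) - (X - A) * (3 * i * (X + A)) := by ring
    rw [e1]
    refine (Valuation.map_sub _ _ _).trans (max_le hk1 ?_)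
    rw [map_mul]
    refine (mul_le_of_le_one_right' ?_).trans ha'
    rw [map_mul, map_mul, hw3, one_mul]
    exact mul_le_one' hwi ((Valuation.map_add _ _ _).trans (max_le hwX hwA))
  have e2 : δ + 3 * i * A ^ 2 = ph e pi1_prime (em0 e (Δ + 3 * im1 * a ^ 2)) := by
    rw [hA, hi, hδ]
    simp only [map_add, map_mul, map_pow, map_ofNat]
  rw [e2, hw, vv_coe] at key2
  obtain ⟨k, hk⟩ := (val_pow_le e pi1_prime _ 2).1 (by exact_mod_cast key2)
  have hp2 : pi1 ^ 2 = 2 * im1 := by decide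
  rw [hp2] at hk
  exact no_two (a := a) (k := im1 * k) hΔ (by linear_combination hk)

lemma assoc_pi1 {z : ZI} (hz : Prime z) (h2 : z ∣ 2) :
    plc e hz = (plc e pi1_prime : HeightOneSpectrum (𝓞 K)) := by
  have hzp : z ∣ pi1 := by
    have h3 : (2 : ZI) = pi1 * (pi1 * (-im1)) := by decide
    rw [h3] at h2
    rcases hz.dvd_or_dvd h2 with h4 | h4
    · exact h4
    · rcases hz.dvd_or_dvd h4 with h5 | h5
      · exact h5
      · exfalso
        exact hz.not_isUnit (isUnit_of_dvd_unit h5 (IsUnit.of_mul_eq_one im1 (by decide)))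
  apply HeightOneSpectrum.ext
  show Ideal.span {e z} = Ideal.span {e pi1}
  rw [Ideal.span_singleton_eq_span_singleton]
  have h3 : Associated z pi1 := (hz.dvd_prime_iff_associated pi1_prime).1 hzp
  exact h3.map (e : ZI →* 𝓞 K)

lemma vD1 {Δ : ZI} (hΔ : prim Δ) : vv (plc e pi1_prime : HeightOneSpectrum (𝓞 K))
    (ph e pi1_prime (em0 e (2 * Δ))) = exp (-2 : ℤ) := by
  rw [map_mul, map_mul, map_ofNat, map_ofNat, map_mul, v2c, vv_coe,
    val_one e pi1_prime (pi1_prim hΔ), mul_one]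

/-- **the Tamagawa numbers** -/
theorem tam' {Δ : ZI} (h : PS Δ) (v : HeightOneSpectrum (𝓞 K)) :
    ∃ H : AddSubgroup (q4 (algebraMap K (v.adicCompletion K) (em0 e (2 * Δ)))).toAffine.Point,
      (∀ P, P ∈ H ↔ NonsingRed (vv v)
        (q4 (algebraMap K (v.adicCompletion K) (em0 e (2 * Δ)))) P) ∧
      H.index = cT e (2 * Δ) v := by
  obtain ⟨z, hz, rfl⟩ : ∃ (z : ZI) (hz : Prime z), v = plc e hz :=
    ⟨_, pg_prime e v, (plc_pg e v).symm⟩
  by_cases h2 : z ∣ 2
  · -- above two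
    rw [assoc_pi1 e hz h2]
    set w := vv (plc e pi1_prime : HeightOneSpectrum (𝓞 K)) with hw
    have hD1 : w (ph e pi1_prime (em0 e (2 * Δ))) = exp (-2 : ℤ) := vD1 e h.prm
    have hlt : w (ph e pi1_prime (em0 e (2 * Δ))) < 1 := by
      rw [hD1, ← exp_zero, exp_lt_exp]; norm_num
    obtain ⟨H, hH⟩ := Pool.Agent.Y891.CTK.sub_of w (q4 (ph e pi1_prime (em0 e (2 * Δ))))
      (by simp [q4]) (by simp [q4]) (by simp [q4]) (by simpa [q4] using hlt.le) (by simp [q4])
    refine ⟨H, hH, ?_⟩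
    have hc : cT e (2 * Δ) (plc e pi1_prime) = 2 := by
      unfold cT
      rw [if_pos ((plc_mem e pi1_prime (2 * Δ)).2 (Dvd.dvd.mul_right (show pi1 ∣ 2 from ⟨pi1 * (-im1), by decide⟩) _))]
    rw [hc]
    have hw2 : w 2 < 1 := by
      rw [hw, v2c, ← exp_zero, exp_lt_exp]; norm_num
    refine index_two' ?_ hlt (fun x y hn => ns_bad2 hw2 hlt hn) ?_ H hH
    · intro h0
      rw [h0, map_zero] at hD1
      exact exp_ne_zero hD1.symm
    · intro x y hxy hx1
      rw [hD1]
      by_cases hx0 : w x = 0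
      · rw [hx0]; exact zero_le
      have hne : w x ≠ exp (-1 : ℤ) := fun h1 => no_one_loc e h.prm h1 hxy
      rw [← exp_log hx0] at hx1 hne ⊢
      rw [← exp_zero, exp_lt_exp] at hx1
      rw [exp_le_exp]
      have : log (w x) ≠ -1 := fun h1 => hne (by rw [h1])
      omega
  · set w := vv (plc e hz) with hw
    have hw2 : w 2 = 1 := by
      have := val_one e hz h2
      rw [map_ofNat] at this
      have h3 : (2 : (plc e hz).adicCompletion K) = ph e hz 2 := (map_ofNat _ 2).symm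
      rw [hw, h3, vv_coe, this]
    have hD1 : w (ph e hz (em0 e (2 * Δ))) ≤ 1 := by rw [hw, vv_coe]; exact val_le e hz _
    obtain ⟨H, hH⟩ := Pool.Agent.Y891.CTK.sub_of w (q4 (ph e hz (em0 e (2 * Δ))))
      (by simp [q4]) (by simp [q4]) (by simp [q4]) (by simpa [q4] using hD1) (by simp [q4])
    refine ⟨H, hH, ?_⟩
    unfold cT
    by_cases hd : z ∣ Δ
    · rw [if_pos ((plc_mem e hz (2 * Δ)).2 (hd.mul_left _))]
      refine index_two hw2 ?_ H hH
      rw [hw, vv_coe, map_mul, map_mul, val_one e hz h2, one_mul, val_sqf e hz h.sqf hd]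
    · have hd2 : ¬ z ∣ 2 * Δ := fun h5 => (hz.dvd_or_dvd h5).elim h2 hd
      rw [if_neg (fun h5 => hd2 ((plc_mem e hz (2 * Δ)).1 h5)), AddSubgroup.index_eq_one]
      apply SetLike.ext
      intro P
      rw [hH]
      refine ⟨fun _ => AddSubgroup.mem_top _, fun _ => ns_good hw2 ?_ P⟩
      rw [hw, vv_coe, val_one e hz hd2]

/-- **minimality** -/
theorem min' {Δ : ZI} (h : PS Δ) (v : HeightOneSpectrum (𝓞 K)) :
    WeierstrassCurve.IsMinimal (v.adicCompletionIntegers K)
      (q4 (algebraMap K (v.adicCompletion K) (em0 e (2 * Δ)))) := by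
  have hbc : q4 (algebraMap K (v.adicCompletion K) (em0 e (2 * Δ))) =
      q4 (algebraMap (v.adicCompletionIntegers K) (v.adicCompletion K)
        (algebraMap (𝓞 K) (v.adicCompletionIntegers K) (e (2 * Δ)))) := by
    congr 1
  rw [hbc]
  apply isMinimal_q4
  rw [← hbc]
  intro C hC u₀ hu₀ hu
  obtain ⟨z, hz, rfl⟩ : ∃ (z : ZI) (hz : Prime z), v = plc e hz :=
    ⟨_, pg_prime e v, (plc_pg e v).symm⟩
  set w := vv (plc e hz) with hw
  have hu1 : w ((C.u : _ˣ) : (plc e hz).adicCompletion K) < 1 := by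
    rw [← hu]
    exact (mem_max _ _).1 hu₀
  have hu2 : w ((C.u : _ˣ) : (plc e hz).adicCompletion K) ≤ exp (-1 : ℤ) := by
    have := lt_exp (n := 0) (by simpa using hu1)
    simpa using this
  obtain ⟨⟨W₀, hW₀⟩⟩ := hC
  have hint : ∀ a : (plc e hz).adicCompletionIntegers K,
      w (algebraMap _ ((plc e hz).adicCompletion K) a) ≤ 1 := fun a =>
    (HeightOneSpectrum.mem_adicCompletionIntegers (𝓞 K) K (plc e hz)).1 a.2
  have b1 : w (C • q4 (ph e hz (em0 e (2 * Δ)))).a₁ ≤ 1 := by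
    rw [hW₀]; exact hint _
  have b2 : w (C • q4 (ph e hz (em0 e (2 * Δ)))).a₂ ≤ 1 := by
    rw [hW₀]; exact hint _
  have b3 : w (C • q4 (ph e hz (em0 e (2 * Δ)))).a₃ ≤ 1 := by
    rw [hW₀]; exact hint _
  have b4 : w (C • q4 (ph e hz (em0 e (2 * Δ)))).a₄ ≤ 1 := by
    rw [hW₀]; exact hint _
  have bΔ : w (C • q4 (ph e hz (em0 e (2 * Δ)))).Δ ≤ 1 := by
    rw [hW₀]
    have : (W₀.baseChange ((plc e hz).adicCompletion K)).Δ =
        algebraMap _ ((plc e hz).adicCompletion K) W₀.Δ := WeierstrassCurve.map_Δ _ _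
    rw [this]
    exact hint _
  obtain ⟨u, hu'⟩ : ∃ u : (plc e hz).adicCompletion K, u = ((C.u : _ˣ) : (plc e hz).adicCompletion K) :=
    ⟨_, rfl⟩
  have hu0 : u ≠ 0 := by rw [hu']; exact C.u.ne_zero
  have huinv : ((C.u⁻¹ : _ˣ) : (plc e hz).adicCompletion K) = u⁻¹ := by
    rw [Units.val_inv_eq_inv_val, hu']
  rw [← hu'] at hu2
  by_cases h2 : z ∣ 2
  · -- above two
    have hpl := assoc_pi1 e hz h2
    have hno : ∀ p : HeightOneSpectrum (𝓞 K), p = plc e pi1_prime → ∀ x : p.adicCompletion K,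
        vv p (algebraMap K (p.adicCompletion K) (em0 e (2 * Δ)) + 3 * x ^ 2) ≤ exp (-4 : ℤ) →
          False := by
      rintro p rfl x hx
      exact no_der_loc e h.prm hx
    have hv2 : ∀ p : HeightOneSpectrum (𝓞 K), p = plc e pi1_prime →
        vv p (2 : p.adicCompletion K) = exp (-2 : ℤ) := by
      rintro p rfl
      exact v2c e
    have hvD : ∀ p : HeightOneSpectrum (𝓞 K), p = plc e pi1_prime →
        vv p (algebraMap K (p.adicCompletion K) (em0 e (2 * Δ))) = exp (-2 : ℤ) := by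
      rintro p rfl
      exact vD1 e h.prm
    refine change' (r := C.r) (s := C.s) (t := C.t) hu0 hu2 (hvD _ hpl) (hv2 _ hpl) ?_ ?_ ?_ ?_
      (hno _ hpl)
    · rw [WeierstrassCurve.variableChange_a₁, huinv] at b1
      simpa [q4] using b1
    · rw [WeierstrassCurve.variableChange_a₂, huinv] at b2
      simpa [q4] using b2
    · rw [WeierstrassCurve.variableChange_a₃, huinv] at b3
      simpa [q4] using b3
    · rw [WeierstrassCurve.variableChange_a₄, huinv] at b4
      simpa [q4] using b4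
  · -- away from two: the discriminant
    rw [WeierstrassCurve.variableChange_Δ, huinv, q4_Δ, map_mul, map_pow, map_inv₀, inv_pow] at bΔ
    have hwu : w u ≠ 0 := (Valuation.ne_zero_iff _).2 hu0
    have h64 : w (-64 * ph e hz (em0 e (2 * Δ)) ^ 3) ≤ w u ^ 12 := by
      have h5 : w (-64 * ph e hz (em0 e (2 * Δ)) ^ 3) =
          w u ^ 12 * ((w u ^ 12)⁻¹ * w (-64 * ph e hz (em0 e (2 * Δ)) ^ 3)) := by
        rw [← mul_assoc, mul_inv_cancel₀ (pow_ne_zero 12 hwu), one_mul]
      rw [h5]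
      exact mul_le_of_le_one_right' bΔ
    have hw2 : w (2 : (plc e hz).adicCompletion K) = 1 := by
      have := val_one e hz h2
      rw [map_ofNat] at this
      have h3 : (2 : (plc e hz).adicCompletion K) = ph e hz 2 := (map_ofNat _ 2).symm
      rw [hw, h3, vv_coe, this]
    have hw64 : w (-64 : (plc e hz).adicCompletion K) = 1 := by
      have : (-64 : (plc e hz).adicCompletion K) = -(2 ^ 6) := by norm_num
      rw [this, Valuation.map_neg, map_pow, hw2, one_pow]
    have hwD : exp (-1 : ℤ) ≤ w (ph e hz (em0 e (2 * Δ))) := by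
      rw [hw, vv_coe, map_mul, map_mul, val_one e hz h2, one_mul]
      by_cases hd : z ∣ Δ
      · rw [val_sqf e hz h.sqf hd]
      · rw [val_one e hz hd, ← exp_zero, exp_le_exp]
        norm_num
    rw [map_mul, hw64, one_mul, map_pow] at h64
    have h12 : (exp (-3 : ℤ) : ℤᵐ⁰) ≤ exp (-12 : ℤ) := by
      calc (exp (-3 : ℤ) : ℤᵐ⁰) = (exp (-1 : ℤ)) ^ 3 := by rw [← exp_nsmul]; rfl
        _ ≤ w (ph e hz (em0 e (2 * Δ))) ^ 3 := by gcongr
        _ ≤ w u ^ 12 := h64
        _ ≤ (exp (-1 : ℤ)) ^ 12 := by gcongr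
        _ = exp (-12 : ℤ) := by rw [← exp_nsmul]; rfl
    rw [exp_le_exp] at h12
    norm_num at h12

/-- the factorisation of the Tamagawa numbers -/
lemma cT_two {Δ : ZI} (h : PS Δ) (v : HeightOneSpectrum (𝓞 K)) :
    cT e (2 * Δ) v = cT e Δ v * (if v = plc e pi1_prime then 2 else 1) := by
  obtain ⟨z, hz, rfl⟩ : ∃ (z : ZI) (hz : Prime z), v = plc e hz :=
    ⟨_, pg_prime e v, (plc_pg e v).symm⟩
  unfold cT
  by_cases h2 : z ∣ 2
  · have hpl := assoc_pi1 (K := K) e hz h2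
    rw [hpl, if_pos rfl,
      if_pos ((plc_mem e pi1_prime (2 * Δ)).2 (Dvd.dvd.mul_right (show pi1 ∣ 2 from ⟨pi1 * (-im1), by decide⟩) _)),
      if_neg (fun h5 => pi1_prim h.prm ((plc_mem e pi1_prime Δ).1 h5)), one_mul]
  · have hne : (plc e hz : HeightOneSpectrum (𝓞 K)) ≠ plc e pi1_prime := by
      intro h5
      apply h2
      have h6 : Ideal.span {e z} = Ideal.span {e pi1} := congrArg HeightOneSpectrum.asIdeal h5
      have h7 : e z ∣ e pi1 := by
        rw [← Ideal.mem_span_singleton, h6]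
        exact Ideal.mem_span_singleton_self _
      have h8 : z ∣ pi1 := by
        have := map_dvd e.symm h7
        simpa using this
      exact h8.trans ⟨pi1 * (-im1), by decide⟩
    rw [if_neg hne, mul_one]
    by_cases hd : z ∣ Δ
    · rw [if_pos ((plc_mem e hz (2 * Δ)).2 (hd.mul_left _)), if_pos ((plc_mem e hz Δ).2 hd)]
    · have hd2 : ¬ z ∣ 2 * Δ := fun h5 => (hz.dvd_or_dvd h5).elim h2 hd
      rw [if_neg (fun h5 => hd2 ((plc_mem e hz (2 * Δ)).1 h5)),
        if_neg (fun h5 => hd ((plc_mem e hz Δ).1 h5))]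

theorem cT_prod' {Δ : ZI} (h : PS Δ) :
    {v : HeightOneSpectrum (𝓞 K) | cT e (2 * Δ) v ≠ 1}.Finite ∧
    ∏ᶠ v : HeightOneSpectrum (𝓞 K), cT e (2 * Δ) v = 2 ^ ((PD Δ).card + 1) := by
  obtain ⟨hf, hp⟩ := cT_prod (K := K) e h
  have hg : {v : HeightOneSpectrum (𝓞 K) | (if v = plc e pi1_prime then 2 else 1 : ℕ) ≠ 1} ⊆
      {plc e pi1_prime} := by
    intro v hv
    by_contra h1
    exact hv (if_neg h1)
  have hgf : {v : HeightOneSpectrum (𝓞 K) | (if v = plc e pi1_prime then 2 else 1 : ℕ) ≠ 1}.Finite :=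
    (Set.finite_singleton _).subset hg
  constructor
  · refine (hf.union hgf).subset ?_
    intro v hv
    by_contra h1
    rw [Set.mem_union, not_or] at h1
    obtain ⟨h3, h4⟩ := h1
    have h3' : cT e Δ v = 1 := by
      by_contra h5; exact h3 h5
    have h4' : (if v = plc e pi1_prime then 2 else 1 : ℕ) = 1 := by
      by_contra h5; exact h4 h5
    apply hv
    rw [cT_two e h v, h3', h4']
  · have e1 : (fun v : HeightOneSpectrum (𝓞 K) => cT e (2 * Δ) v) =
        fun v => cT e Δ v * (if v = plc e pi1_prime then 2 else 1) := funext (cT_two e h)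
    rw [e1, finprod_mul_distrib hf hgf, hp, pow_succ]
    congr 1
    rw [finprod_eq_single _ (plc e pi1_prime) (fun v hv => if_neg hv), if_pos rfl]

end glob


theorem ktam : Pool.Agent.D0H10.Q4.S_KTAM := by
  intro K _ _ e Δ hΔ
  refine ⟨fun v => ⟨min' e hΔ v, ?_⟩, ?_⟩
  · exact tam' e hΔ v
  · exact cT_prod' e hΔ

end Pool.Agent.D0H11.Q4
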